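import Pool.Agent.Y990.SH.Stm2

set_option autoImplicit false

open MeasureTheory Set

/-!
Project SH: representatives of the large clusters, and the tiling count.
-/

namespace Pool.Agent.Y188.SH

open Pool.Agent.W783.PC (pm DepOn Inc)
open Pool.Agent.Y990.CB

theorem rep_graph {d : ℕ} (Γ : SimpleGraph (Z d)) (n A : ℕ) (ε : ℝ) (hε : 0 < ε)
    (hA : 4 / ε ≤ A) :
    ∃ r : Fin A → Z d, (∀ a, r a ∈ Bo (0 : Z d) n) ∧ ∀ y ∈ Bo (0 : Z d) n,
      ε / 4 * ((2 * n + 1 : ℕ) : ℝ) ^ d ≤ (({x | Γ.Reachable y x} ∩ Bo 0 n).ncard : ℝ) →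
      ∃ a, Γ.Reachable y (r a) := by
  classical
  set v : ℝ := ((2 * n + 1 : ℕ) : ℝ) ^ d with hv
  have hv0 : 0 < v := by positivity
  let c : Z d → Finset (Z d) := fun y => (Bf (0 : Z d) n).filter (fun x => Γ.Reachable y x)
  have hc : ∀ y, ({x | Γ.Reachable y x} ∩ Bo (0 : Z d) n).ncard = (c y).card := by
    intro y
    rw [← Set.ncard_coe_finset]
    congr 1
    ext x
    simp only [c, Finset.coe_filter, mem_inter_iff]
    constructor
    · rintro ⟨h1, h2⟩
      exact ⟨mem_Bf.2 h2, h1⟩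
    · rintro ⟨h1, h2⟩
      exact ⟨h2, mem_Bf.1 h1⟩
  let P : Finset (Finset (Z d)) := (Bf (0 : Z d) n).powerset.filter (fun S =>
    (∀ y ∈ S, ε / 4 * v ≤ ((c y).card : ℝ)) ∧ ∀ y ∈ S, ∀ z ∈ S, y ≠ z → ¬ Γ.Reachable y z)
  obtain ⟨S, hS, hmax⟩ := P.exists_max_image (fun S => S.card)
    ⟨∅, by simp [P]⟩
  have hS' := Finset.mem_filter.1 hS
  obtain ⟨hSB, hSl, hSd⟩ := hS'
  rw [Finset.mem_powerset] at hSB
  have hdis : ∀ y ∈ S, ∀ z ∈ S, y ≠ z → Disjoint (c y) (c z) := by
    intro y hy z hz hyz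
    rw [Finset.disjoint_left]
    intro x hx hx'
    exact hSd y hy z hz hyz ((Finset.mem_filter.1 hx).2.trans (Finset.mem_filter.1 hx').2.symm)
  have hcard : (S.card : ℝ) * (ε / 4 * v) ≤ v := by
    have h1 : (S.biUnion c).card = ∑ y ∈ S, (c y).card := Finset.card_biUnion hdis
    have h2 : (S.biUnion c).card ≤ (Bf (0 : Z d) n).card := by
      apply Finset.card_le_card
      intro x hx
      obtain ⟨y, _, hy⟩ := Finset.mem_biUnion.1 hx
      exact (Finset.mem_filter.1 hy).1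
    rw [card_Bf, h1] at h2
    have h3 : ∑ y ∈ S, ((c y).card : ℝ) ≤ v := by
      rw [hv]
      exact_mod_cast h2
    calc (S.card : ℝ) * (ε / 4 * v) = ∑ _y ∈ S, (ε / 4 * v) := by
          rw [Finset.sum_const, nsmul_eq_mul]
      _ ≤ ∑ y ∈ S, ((c y).card : ℝ) := Finset.sum_le_sum hSl
      _ ≤ v := h3
  have hSA : S.card ≤ A := by
    have h1 : (S.card : ℝ) ≤ 4 / ε := by
      rw [le_div_iff₀ hε]
      have : (S.card : ℝ) * (ε / 4) * v ≤ 1 * v := by linarith
      have := le_of_mul_le_mul_right this hv0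
      linarith
    exact_mod_cast h1.trans hA
  refine ⟨fun a => if h : (a : ℕ) < S.card then (S.equivFin.symm ⟨a, h⟩ : Z d) else 0, ?_, ?_⟩
  · intro a
    dsimp only
    split
    · exact mem_Bf.1 (hSB (Subtype.prop _))
    · exact self_mem_Bo 0 n
  · intro y hy hl
    rw [hc] at hl
    have key : ∃ s ∈ S, Γ.Reachable y s := by
      by_contra hcon
      push Not at hcon
      have hyS : y ∉ S := fun h => hcon y h (SimpleGraph.Reachable.refl y)
      have hin : insert y S ∈ P := by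
        refine Finset.mem_filter.2 ⟨?_, ?_, ?_⟩
        · rw [Finset.mem_powerset, Finset.insert_subset_iff]
          exact ⟨mem_Bf.2 hy, hSB⟩
        · intro z hz
          rcases Finset.mem_insert.1 hz with rfl | hz
          · exact hl
          · exact hSl z hz
        · intro z hz w hw hzw
          rcases Finset.mem_insert.1 hz with hz' | hz' <;>
            rcases Finset.mem_insert.1 hw with hw' | hw'
          · exact absurd (hz'.trans hw'.symm) hzw
          · rw [hz']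
            exact hcon w hw'
          · rw [hw']
            exact fun h => hcon z hz' h.symm
          · exact hSd z hz' w hw' hzw
      have := hmax _ hin
      rw [Finset.card_insert_of_notMem hyS] at this
      omega
    obtain ⟨s, hs, hys⟩ := key
    refine ⟨⟨(S.equivFin ⟨s, hs⟩ : ℕ), lt_of_lt_of_le (S.equivFin ⟨s, hs⟩).2 hSA⟩, ?_⟩
    dsimp only
    rw [dif_pos (S.equivFin ⟨s, hs⟩).2]
    simpa using hys

theorem rep : Pool.Agent.Y990.SH.S_rep := by
  intro d M n ρ A ε hε hA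
  choose r h1 h2 using fun Γ : SimpleGraph (Z d) => rep_graph Γ n A ε hε hA
  refine ⟨fun ω => r (G M ω (Bo 0 ρ)), ?_, fun ω a => h1 _ a, fun ω y hy hl => ?_⟩
  · intro ω ω' h
    dsimp only
    rw [graph_congr h]
  · exact h2 (G M ω (Bo 0 ρ)) y hy hl

theorem tile : Pool.Agent.Y990.SH.S_tile := by
  classical
  intro d n K r ε C hr hε hK hC hCc
  set v : ℝ := ((2 * n + 1 : ℕ) : ℝ) ^ d with hv
  have hv0 : 0 < v := by positivity
  have hfin : C.Finite := (Bo_finite _ _).subset hC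
  obtain ⟨D, rfl⟩ : ∃ D : Finset (Z d), (D : Set (Z d)) = C := ⟨hfin.toFinset, by simp⟩
  let cell : Z d → Finset (Z d) := fun k => D.filter (fun x => x ∈ Bo ((2 * n + 1 : ℤ) • k) n)
  have hcell : ∀ k, (((D : Set (Z d)) ∩ Bo ((2 * n + 1 : ℤ) • k) n).ncard) = (cell k).card := by
    intro k
    rw [← Set.ncard_coe_finset]
    congr 1
    ext x
    simp only [cell, Finset.coe_filter, mem_inter_iff]
    rfl
  have hm : (0 : ℤ) < 2 * n + 1 := by positivity
  let idx : Z d → Z d := fun x i => (x i + n) / (2 * n + 1)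
  have hidx : ∀ x ∈ D, idx x ∈ Bf (0 : Z d) K := by
    intro x hx
    rw [mem_Bf]
    intro i
    have h1 := hC hx i
    simp only [Pi.zero_apply, sub_zero] at h1 ⊢
    rw [abs_le] at h1 ⊢
    push_cast at h1
    constructor
    · exact (Int.le_ediv_iff_mul_le hm).2 (by nlinarith [h1.1])
    · have : (x i + n) / (2 * n + 1) < K + 1 := Int.ediv_lt_of_lt_mul hm (by nlinarith [h1.2])
      change (x i + n) / (2 * n + 1) ≤ (K : ℤ)
      linarith
  have hmem : ∀ x, x ∈ Bo ((2 * n + 1 : ℤ) • idx x) n := by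
    intro x i
    have e1 : ((2 * n + 1 : ℤ) • idx x) i = (2 * n + 1) * ((x i + n) / (2 * n + 1)) := rfl
    rw [e1]
    have h1 := Int.emod_nonneg (x i + n) hm.ne'
    have h2 := Int.emod_lt_of_pos (x i + n) hm
    have h3 := Int.emod_add_mul_ediv (x i + n) (2 * n + 1)
    rw [abs_le]
    constructor <;> linarith
  have hsum : D.card ≤ ∑ k ∈ Bf (0 : Z d) K, (cell k).card := by
    rw [Finset.card_eq_sum_card_fiberwise (f := idx) (t := Bf (0 : Z d) K)
      (fun x hx => hidx x hx)]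
    apply Finset.sum_le_sum
    intro k _
    apply Finset.card_le_card
    intro x hx
    rw [Finset.mem_filter] at hx ⊢
    refine ⟨hx.1, ?_⟩
    rw [← hx.2]
    exact hmem x
  have hcv : ∀ k, ((cell k).card : ℝ) ≤ v := by
    intro k
    have h1 : cell k ⊆ Bf ((2 * n + 1 : ℤ) • k) n := by
      intro x hx
      exact mem_Bf.2 (Finset.mem_filter.1 hx).2
    have h2 := Finset.card_le_card h1
    rw [card_Bf] at h2
    rw [hv]
    exact_mod_cast h2
  have hKd : ((Bf (0 : Z d) K).card : ℝ) = ((2 * K + 1 : ℕ) : ℝ) ^ d := by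
    rw [card_Bf]
    push_cast
    rfl
  have hKr : ((Bf (0 : Z d) (K - r)).card : ℝ) = ((2 * (K - r) + 1 : ℕ) : ℝ) ^ d := by
    rw [card_Bf]
    push_cast
    rfl
  set Q : ℝ := ((2 * K + 1 : ℕ) : ℝ) ^ d with hQ
  have hside : ((2 * (K * (2 * n + 1) + n) + 1 : ℕ) : ℝ) ^ d = Q * v := by
    rw [hQ, hv, ← mul_pow]
    congr 1
    push_cast
    ring
  rw [hside, Set.ncard_coe_finset] at hCc
  let R : ℕ → Finset (Z d) := fun L => (Bf (0 : Z d) L).filter (fun k =>
    ε / 2 * v ≤ ((cell k).card : ℝ))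
  have hbound : (∑ k ∈ Bf (0 : Z d) K, ((cell k).card : ℝ)) ≤
      ((R K).card : ℝ) * v + Q * (ε / 2 * v) := by
    have h1 : ∀ k ∈ Bf (0 : Z d) K, ((cell k).card : ℝ) ≤
        (if ε / 2 * v ≤ ((cell k).card : ℝ) then v else 0) + ε / 2 * v := by
      intro k _
      split_ifs with h
      · have := hcv k
        have : 0 ≤ ε / 2 * v := by positivity
        linarith [hcv k]
      · push Not at h
        linarith
    calc (∑ k ∈ Bf (0 : Z d) K, ((cell k).card : ℝ))
        ≤ ∑ k ∈ Bf (0 : Z d) K,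
          ((if ε / 2 * v ≤ ((cell k).card : ℝ) then v else 0) + ε / 2 * v) :=
            Finset.sum_le_sum h1
      _ = ((R K).card : ℝ) * v + Q * (ε / 2 * v) := by
        rw [Finset.sum_add_distrib, Finset.sum_const, nsmul_eq_mul, hKd, ← Finset.sum_filter,
          Finset.sum_const, nsmul_eq_mul]
  have hrich : ε / 2 * Q ≤ ((R K).card : ℝ) := by
    have h1 : (D.card : ℝ) ≤ ∑ k ∈ Bf (0 : Z d) K, ((cell k).card : ℝ) := by
      exact_mod_cast hsum
    have h2 : (ε / 2 * Q) * v ≤ ((R K).card : ℝ) * v := by nlinarith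
    exact le_of_mul_le_mul_right h2 hv0
  have hsub : R K ⊆ R (K - r) ∪ (Bf (0 : Z d) K \ Bf (0 : Z d) (K - r)) := by
    intro k hk
    have hk' := Finset.mem_filter.1 hk
    by_cases h : k ∈ Bf (0 : Z d) (K - r)
    · exact Finset.mem_union_left _ (Finset.mem_filter.2 ⟨h, hk'.2⟩)
    · exact Finset.mem_union_right _ (Finset.mem_sdiff.2 ⟨hk'.1, h⟩)
  have hcs : ((R K).card : ℝ) ≤ ((R (K - r)).card : ℝ) +
      (Q - ((2 * (K - r) + 1 : ℕ) : ℝ) ^ d) := by
    have h1 := (Finset.card_le_card hsub).trans (Finset.card_union_le _ _)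
    have h2 : Bf (0 : Z d) (K - r) ⊆ Bf (0 : Z d) K := by
      intro x hx
      exact mem_Bf.2 (Bo_mono 0 (Nat.sub_le K r) (mem_Bf.1 hx))
    have h3 : ((Bf (0 : Z d) K \ Bf (0 : Z d) (K - r)).card : ℝ) =
        Q - ((2 * (K - r) + 1 : ℕ) : ℝ) ^ d := by
      rw [Finset.card_sdiff_of_subset h2, Nat.cast_sub (Finset.card_le_card h2), hKd, hKr]
    rw [← h3]
    exact_mod_cast h1
  have hfinal : ε / 4 * Q ≤ ((R (K - r)).card : ℝ) := by
    nlinarith
  have hR : R (K - r) = (Bf (0 : Z d) (K - r)).filter (fun k =>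
      ε / 2 * v ≤ (((D : Set (Z d)) ∩ Bo ((2 * n + 1 : ℤ) • k) n).ncard : ℝ)) := by
    apply Finset.filter_congr
    intro k _
    rw [hcell]
  rw [hR] at hfinal
  convert hfinal using 3

end Pool.Agent.Y188.SH
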